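import Pool.Agent.W893.SY.Defs

/-!
SY-SUP of helper893's project on MP_0a1b52_lc: the support lemma for circuits which are symmetric
under a power of a perfect group.
-/

namespace Pool.Agent.W63.SYSup

open Finset Pool.Agent.W893.SY
open scoped commutatorElement

variable {I R : Type} {s : ℕ}

/-- automorphisms compose -/
theorem isAut_mul {C : Net I R s} {σ τ : I → I} {α β : Equiv.Perm (Fin s)}
    (hα : C.IsAut σ α) (hβ : C.IsAut τ β) : C.IsAut (σ ∘ τ) (α * β) := by
  refine ⟨fun g => ?_, ?_⟩
  · rw [Equiv.Perm.mul_apply, hα.1, hβ.1, Sum.map_map]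
    congr 1
    funext p
    obtain ⟨w, f⟩ := p
    simp only [Function.comp_apply, Prod.map_apply, id, Multiset.map_map]
    congr 2
  · rw [Equiv.Perm.mul_apply, hβ.2, hα.2]

/-- the inverse of an automorphism -/
theorem isAut_inv {C : Net I R s} {σ τ : I → I} {α : Equiv.Perm (Fin s)}
    (hα : C.IsAut σ α) (hτ : τ ∘ σ = id) : C.IsAut τ α⁻¹ := by
  refine ⟨fun g => ?_, ?_⟩
  · have h := hα.1 (α⁻¹ g)
    rw [← Equiv.Perm.mul_apply, mul_inv_cancel, Equiv.Perm.one_apply] at h
    rw [h, Sum.map_map, hτ]
    have h2 : (Prod.map (Multiset.map (Prod.map id ⇑α⁻¹)) id ∘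
        Prod.map (Multiset.map (Prod.map id ⇑α)) id :
        Multiset (ℕ × Fin s) × (Multiset (ℕ × R) → R) → _) = id := by
      funext p
      obtain ⟨w, f⟩ := p
      simp only [Function.comp_apply, Prod.map_apply, id, Multiset.map_map]
      congr 1
      have h3 : (fun q : ℕ × Fin s => Prod.map id (⇑α⁻¹) (Prod.map id (⇑α) q)) = id := by
        funext q
        obtain ⟨l, q⟩ := q
        simp
      rw [h3, Multiset.map_id]
    rw [h2, Sum.map_id_id]
    rfl
  · rw [Equiv.Perm.inv_eq_iff_eq]
    exact hα.2.symm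

variable {P : Type} [Group P] {m : ℕ}

/-- the elements which have an automorphism over them that fixes the gate -/
def stab (C : Net I R s) (act : (Fin m → P) → I → I) (h1 : act 1 = id)
    (hm : ∀ a b, act (a * b) = act a ∘ act b) (g : Fin s) : Subgroup (Fin m → P) where
  carrier := {a | ∃ α, C.IsAut (act a) α ∧ α g = g}
  one_mem' := by
    refine ⟨1, ⟨fun g => ?_, rfl⟩, rfl⟩
    rw [h1]
    have h3 : (Prod.map id ⇑(1 : Equiv.Perm (Fin s)) : ℕ × Fin s → ℕ × Fin s) = id := by
      funext q
      rfl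
    rw [h3]
    have h4 : (Prod.map (Multiset.map (id : ℕ × Fin s → ℕ × Fin s)) id :
        Multiset (ℕ × Fin s) × (Multiset (ℕ × R) → R) → _) = id := by
      funext p
      obtain ⟨w, f⟩ := p
      simp
    rw [h4, Sum.map_id_id]
    rfl
  mul_mem' := by
    rintro a b ⟨α, hα, hαg⟩ ⟨β, hβ, hβg⟩
    refine ⟨α * β, ?_, ?_⟩
    · rw [hm]
      exact isAut_mul hα hβ
    · rw [Equiv.Perm.mul_apply, hβg, hαg]
  inv_mem' := by
    rintro a ⟨α, hα, hαg⟩
    refine ⟨α⁻¹, isAut_inv hα ?_, ?_⟩
    · rw [← hm, inv_mul_cancel, h1]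
    · rw [Equiv.Perm.inv_eq_iff_eq]
      exact hαg.symm

/-- the factor `i` of the elements of `H` which are trivial above `i` -/
def fac (H : Subgroup (Fin m → P)) (ρ : Fin m → ℕ) (i : Fin m) : Subgroup P where
  carrier := {x | ∃ a ∈ H, a i = x ∧ ∀ j, ρ i < ρ j → a j = 1}
  one_mem' := ⟨1, H.one_mem, rfl, fun _ _ => rfl⟩
  mul_mem' := by
    rintro x y ⟨a, ha, rfl, ha'⟩ ⟨b, hb, rfl, hb'⟩
    refine ⟨a * b, H.mul_mem ha hb, rfl, fun j hj => ?_⟩
    rw [Pi.mul_apply, ha' j hj, hb' j hj, one_mul]
  inv_mem' := by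
    rintro x ⟨a, ha, rfl, ha'⟩
    refine ⟨a⁻¹, H.inv_mem ha, rfl, fun j hj => ?_⟩
    rw [Pi.inv_apply, ha' j hj, inv_one]

open Classical in
/-- there are few factors which are not full -/
theorem card_bad (C : Net I R s) (act : (Fin m → P) → I → I) (h1 : act 1 = id)
    (hm : ∀ a b, act (a * b) = act a ∘ act b) (haut : ∀ a, ∃ α, C.IsAut (act a) α) (g : Fin s)
    (ρ : Fin m → ℕ) (κ : ℕ) (hs : s < 2 ^ (κ + 1)) :
    (univ.filter fun i => fac (stab C act h1 hm g) ρ i ≠ ⊤).card ≤ κ := by
  set H := stab C act h1 hm g with hH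
  set Z := univ.filter fun i => fac H ρ i ≠ ⊤ with hZ
  have hx : ∀ i, ∃ x, i ∈ Z → x ∉ fac H ρ i := by
    intro i
    by_cases hi : i ∈ Z
    · have h2 := (mem_filter.1 hi).2
      by_contra hcon
      push Not at hcon
      apply h2
      rw [Subgroup.eq_top_iff']
      intro x
      exact (hcon x).2
    · exact ⟨1, fun h => absurd h hi⟩
  choose x hx using hx
  choose α hα using haut
  let aS : Finset (Fin m) → Fin m → P := fun S i => if i ∈ S then x i else 1
  have hinj : Set.InjOn (fun S => α (aS S) g) (Z.powerset : Set (Finset (Fin m))) := by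
    intro S hS T hT hST
    rw [mem_coe, mem_powerset] at hS hT
    by_contra hne
    have hb : (aS S)⁻¹ * aS T ∈ H := by
      refine ⟨(α (aS S))⁻¹ * α (aS T), ?_, ?_⟩
      · rw [hm]
        refine isAut_mul (isAut_inv (hα _) ?_) (hα _)
        rw [← hm, inv_mul_cancel, h1]
      · rw [Equiv.Perm.mul_apply, Equiv.Perm.inv_eq_iff_eq]
        exact hST.symm
    have hnon : (symmDiff S T).Nonempty := by
      rw [nonempty_iff_ne_empty]
      intro h
      exact hne (symmDiff_eq_bot.1 h)
    obtain ⟨i, hi, himax⟩ := exists_max_image (symmDiff S T) ρ hnon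
    have hiZ : i ∈ Z := by
      rcases mem_symmDiff.1 hi with h | h
      · exact hS h.1
      · exact hT h.1
    have habove : ∀ j, ρ i < ρ j → ((aS S)⁻¹ * aS T) j = 1 := by
      intro j hj
      have hj' : j ∉ symmDiff S T := fun h => absurd (himax j h) (not_le.2 hj)
      have hiff : j ∈ S ↔ j ∈ T := by
        rw [mem_symmDiff] at hj'
        tauto
      have : aS S j = aS T j := by
        simp only [aS, hiff]
      rw [Pi.mul_apply, Pi.inv_apply, this, inv_mul_cancel]
    have hmem : ((aS S)⁻¹ * aS T) i ∈ fac H ρ i := ⟨_, hb, rfl, habove⟩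
    apply hx i hiZ
    rcases mem_symmDiff.1 hi with h | h
    · have e : ((aS S)⁻¹ * aS T) i = (x i)⁻¹ := by
        simp only [aS, Pi.mul_apply, Pi.inv_apply, h.1, h.2, if_true, if_false, mul_one]
      rw [e] at hmem
      exact (Subgroup.inv_mem_iff _).1 hmem
    · have e : ((aS S)⁻¹ * aS T) i = x i := by
        simp only [aS, Pi.mul_apply, Pi.inv_apply, h.1, h.2, if_true, if_false, inv_one, one_mul]
      rw [e] at hmem
      exact hmem
  have hcard := card_le_card_of_injOn (s := Z.powerset) (t := (univ : Finset (Fin s)))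
    (fun S => α (aS S) g) (fun _ _ => mem_univ _) hinj
  rw [card_powerset, card_univ, Fintype.card_fin] at hcard
  have h2 : 2 ^ Z.card < 2 ^ (κ + 1) := lt_of_le_of_lt hcard hs
  have h3 := (Nat.pow_lt_pow_iff_right (by norm_num : 1 < 2)).1 h2
  omega

open Classical in
theorem main : S_sup := by
  intro I R P _ hP m s κ C act h1 hm haut hs g
  set H := stab C act h1 hm g with hH
  set Z := univ.filter fun i => fac H (fun i => (i : ℕ)) i ≠ ⊤ with hZ
  set Z' := univ.filter fun i => fac H (fun i => m - (i : ℕ)) i ≠ ⊤ with hZ'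
  have hc : Z.card ≤ κ := card_bad C act h1 hm haut g _ κ hs
  have hc' : Z'.card ≤ κ := card_bad C act h1 hm haut g _ κ hs
  refine ⟨Z ∪ Z', ?_, ?_⟩
  · have := card_union_le Z Z'
    omega
  · intro a ha
    have key : a ∈ H := by
      refine Subgroup.pi_mem_of_mulSingle_mem a fun i => ?_
      by_cases hi : i ∈ Z ∪ Z'
      · rw [ha i hi, Pi.mulSingle_one]
        exact H.one_mem
      · rw [mem_union, not_or] at hi
        have hf : fac H (fun i => (i : ℕ)) i = ⊤ := by
          by_contra h
          exact hi.1 (mem_filter.2 ⟨mem_univ _, h⟩)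
        have hf' : fac H (fun i => m - (i : ℕ)) i = ⊤ := by
          by_contra h
          exact hi.2 (mem_filter.2 ⟨mem_univ _, h⟩)
        have hle : commutator P ≤ H.comap (MonoidHom.mulSingle (fun _ : Fin m => P) i) := by
          rw [commutator_def, Subgroup.commutator_le]
          intro x _ y _
          have hx : x ∈ fac H (fun i => (i : ℕ)) i := by rw [hf]; trivial
          have hy : y ∈ fac H (fun i => m - (i : ℕ)) i := by rw [hf']; trivial
          obtain ⟨u, hu, hui, huj⟩ := hx
          obtain ⟨v, hv, hvi, hvj⟩ := hy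
          rw [Subgroup.mem_comap]
          have e : MonoidHom.mulSingle (fun _ : Fin m => P) i ⁅x, y⁆ = ⁅u, v⁆ := by
            funext j
            rw [MonoidHom.mulSingle_apply]
            by_cases hji : j = i
            · subst hji
              rw [Pi.mulSingle_eq_same, ← hui, ← hvi]
              rfl
            · rw [Pi.mulSingle_eq_of_ne hji]
              have e2 : ⁅u, v⁆ j = ⁅u j, v j⁆ := rfl
              rw [e2]
              rcases lt_or_gt_of_ne (fun h => hji (Fin.ext h) : (j : ℕ) ≠ i) with h | h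
              · rw [hvj j (by have := i.2; have := j.2; simp only; omega),
                  commutatorElement_one_right]
              · rw [huj j h, commutatorElement_one_left]
          rw [e, commutatorElement_def]
          exact H.mul_mem (H.mul_mem (H.mul_mem hu hv) (H.inv_mem hu)) (H.inv_mem hv)
        have h5 : a i ∈ H.comap (MonoidHom.mulSingle (fun _ : Fin m => P) i) :=
          hle (by rw [hP]; trivial)
        rw [Subgroup.mem_comap, MonoidHom.mulSingle_apply] at h5
        exact h5
    exact key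

end Pool.Agent.W63.SYSup
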